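import Mathlib

open Set Filter Topology

namespace Pool.Agent.Results.MP_3ea43b_an.NoBoundedCocycle

/-- The Gelfand spectrum `X` of the canonical masa of the UHF algebra with multiplicities
`k 0, k 1, k 2, …` (the limit of the full matrix algebras of sizes `k 0 ⋯ k (n-1)`): the product
space of the finite discrete spaces `Fin (k n)`. -/
abbrev X (k : ℕ → ℕ) : Type := ∀ n, Fin (k n)

/-- The two points of the pair agree from the coordinate `N` on. The set `R_N` of these pairs
is the (compact) equivalence relation of the `N`-th matrix algebra with its diagonal. -/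
def Rel (k : ℕ → ℕ) (N : ℕ) (p : X k × X k) : Prop := ∀ i, N ≤ i → p.1 i = p.2 i

/-- The AF equivalence relation (groupoid) `R` of the UHF algebra and its canonical masa: tail
equivalence, the increasing union of the `R_N`. -/
def R (k : ℕ → ℕ) : Type := {p : X k × X k // ∃ N, Rel k N p}

/-- The inclusion of `R_N` in `R`. -/
def incl (k : ℕ → ℕ) (N : ℕ) (p : {p : X k × X k // Rel k N p}) : R k := ⟨p.1, N, p.2⟩

/-- The étale topology of `R`: the inductive limit topology, a set is open when its trace on each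
`R_N` is open for the topology of `R_N` as a subspace of `X × X`. -/
instance topR (k : ℕ → ℕ) : TopologicalSpace (R k) :=
  ⨆ N : ℕ, TopologicalSpace.coinduced (incl k N) inferInstance

/-- A (continuous real) cocycle on `R`: `c (x, y) + c (y, z) = c (x, z)`. -/
def IsCocycle {k : ℕ → ℕ} (c : R k → ℝ) : Prop :=
  Continuous c ∧ ∀ p q r : R k, p.1.2 = q.1.1 → r.1.1 = p.1.1 → r.1.2 = q.1.2 → c p + c q = c r

/-- `P` is the spectrum of a TAF subalgebra: an open subset of `R` which is a partial order on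
each equivalence class (it contains the diagonal, is antisymmetric and transitive). -/
def IsSpectrum {k : ℕ → ℕ} (P : Set (R k)) : Prop :=
  IsOpen P ∧ (∀ p : R k, p.1.1 = p.1.2 → p ∈ P) ∧
    (∀ p ∈ P, ∀ q ∈ P, p.1.1 = q.1.2 → p.1.2 = q.1.1 → p.1.1 = p.1.2) ∧
    ∀ p ∈ P, ∀ q ∈ P, ∀ r : R k, p.1.2 = q.1.1 → r.1.1 = p.1.1 → r.1.2 = q.1.2 → r ∈ P

/-- `P` admits the cocycle `c`: `P = {c ≥ 0}`. -/
def Admits {k : ℕ → ℕ} (P : Set (R k)) (c : R k → ℝ) : Prop :=
  IsCocycle c ∧ P = {p | 0 ≤ c p}

/-- `c` is bounded on `R`. -/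
def IsBddCocycle {k : ℕ → ℕ} (c : R k → ℝ) : Prop := ∃ K : ℝ, ∀ p, |c p| ≤ K

section proof

variable {k : ℕ → ℕ}

/-- Tail equivalence. -/
def Tail (x y : X k) : Prop := ∃ N, Rel k N (x, y)

/-- The first `N` coordinates of `u`, then the coordinates of `y`. -/
def splice (N : ℕ) (u y : X k) : X k := fun i => if i < N then u i else y i

theorem tail_refl (x : X k) : Tail x x := ⟨0, fun _ _ => rfl⟩

theorem tail_symm {x y : X k} (h : Tail x y) : Tail y x := by
  obtain ⟨N, hN⟩ := h
  exact ⟨N, fun i hi => (hN i hi).symm⟩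

theorem tail_trans {x y z : X k} (h : Tail x y) (h' : Tail y z) : Tail x z := by
  obtain ⟨N, hN⟩ := h
  obtain ⟨M, hM⟩ := h'
  exact ⟨max N M, fun i hi => (hN i (le_of_max_le_left hi)).trans (hM i (le_of_max_le_right hi))⟩

theorem rel_splice (N : ℕ) (u y : X k) : Rel k N (splice N u y, y) := fun i hi => by
  simp [splice, not_lt.2 hi]

theorem tail_splice (N : ℕ) (u y : X k) : Tail (splice N u y) y := ⟨N, rel_splice N u y⟩

theorem eq_splice {N : ℕ} {x y : X k} (h : Rel k N (x, y)) : splice N x y = x := by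
  funext i
  by_cases hi : i < N
  · simp [splice, hi]
  · simp only [splice, hi, if_false]
    exact (h i (not_lt.1 hi)).symm

theorem continuous_splice (N : ℕ) (u : X k) : Continuous (fun y => splice N u y) := by
  refine continuous_pi fun i => ?_
  by_cases hi : i < N
  · simp only [splice, hi, if_true]
    exact continuous_const
  · simp only [splice, hi, if_false]
    exact continuous_apply i

theorem exists_splice_mem {O : Set (X k)} (hO : IsOpen O) {o : X k} (ho : o ∈ O) :
    ∃ n, ∀ x, splice n o x ∈ O := by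
  obtain ⟨I, u, h1, h2⟩ := isOpen_pi_iff.1 hO o ho
  refine ⟨I.sup id + 1, fun x => h2 fun i hi => ?_⟩
  have : i < I.sup id + 1 := Nat.lt_succ_of_le (Finset.le_sup (f := id) hi)
  simp only [splice, this, if_true]
  exact (h1 i hi).2

/-- The basic facts about a cocycle, viewed as a function of two variables. -/
structure Coc (c : X k → X k → ℝ) : Prop where
  cont : ∀ N u, Continuous fun y => c (splice N u y) y
  add : ∀ x y z, Tail x y → Tail y z → c x y + c y z = c x z
  bdd : ∀ N, ∃ K, ∀ x y, Rel k N (x, y) → |c x y| ≤ K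

theorem Coc.self {c : X k → X k → ℝ} (hc : Coc c) (x : X k) : c x x = 0 := by
  have := hc.add x x x (tail_refl x) (tail_refl x)
  linarith

theorem Coc.neg {c : X k → X k → ℝ} (hc : Coc c) {x y : X k} (h : Tail x y) :
    c y x = - c x y := by
  have := hc.add x y x h (tail_symm h)
  rw [hc.self] at this
  linarith

theorem Coc.cont' {c : X k → X k → ℝ} (hc : Coc c) (N : ℕ) (u : X k) :
    Continuous fun y => c y (splice N u y) := by
  have : (fun y => c y (splice N u y)) = fun y => - c (splice N u y) y := by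
    funext y
    exact hc.neg (tail_splice N u y)
  rw [this]
  exact (hc.cont N u).neg

open Classical in
/-- The two-variable function of a cocycle. -/
noncomputable def two (c : R k → ℝ) (x y : X k) : ℝ := if h : Tail x y then c ⟨(x, y), h⟩ else 0

theorem two_eq (c : R k → ℝ) {x y : X k} (h : Tail x y) : two c x y = c ⟨(x, y), h⟩ := by
  simp [two, h]

theorem coc_two {c : R k → ℝ} (hc : IsCocycle c) : Coc (two c) := by
  have hcN : ∀ N, Continuous (c ∘ incl k N) := by
    intro N
    have h1 := continuous_iSup_dom.1 hc.1 N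
    exact continuous_coinduced_dom.1 h1
  refine ⟨?_, ?_, ?_⟩
  · intro N u
    have : (fun y => two c (splice N u y) y) =
        (c ∘ incl k N) ∘ fun y => ⟨(splice N u y, y), rel_splice N u y⟩ := by
      funext y
      rw [two_eq c (tail_splice N u y)]
      rfl
    rw [this]
    exact (hcN N).comp (((continuous_splice N u).prodMk continuous_id).subtype_mk _)
  · intro x y z h1 h2
    rw [two_eq c h1, two_eq c h2, two_eq c (tail_trans h1 h2)]
    exact hc.2 _ _ _ rfl rfl rfl
  · intro N
    have hcl : IsClosed {p : X k × X k | Rel k N p} := by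
      simp only [Rel, Set.ofPred_forall]
      refine isClosed_iInter fun i => isClosed_iInter fun _ => isClosed_eq ?_ ?_
      · exact (continuous_apply i).comp continuous_fst
      · exact (continuous_apply i).comp continuous_snd
    have : CompactSpace {p : X k × X k // Rel k N p} := isCompact_iff_compactSpace.1 hcl.isCompact
    obtain ⟨K, hK⟩ := (isCompact_range (hcN N).norm).bddAbove
    refine ⟨K, fun x y h => ?_⟩
    have := hK ⟨⟨(x, y), h⟩, rfl⟩
    rw [two_eq c ⟨N, h⟩]
    exact this

theorem exists_tail_mem {O : Set (X k)} (hO : IsOpen O) (hne : O.Nonempty) (x : X k) :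
    ∃ y ∈ O, Tail x y := by
  obtain ⟨o, ho⟩ := hne
  obtain ⟨n, hn⟩ := exists_splice_mem hO ho
  exact ⟨splice n o x, hn x, tail_symm (tail_splice n o x)⟩

theorem Coc.neg' {c : X k → X k → ℝ} (hc : Coc c) : Coc (fun x y => - c x y) where
  cont N u := (hc.cont N u).neg
  add x y z h h' := by
    have := hc.add x y z h h'
    linarith
  bdd N := by
    obtain ⟨K, hK⟩ := hc.bdd N
    exact ⟨K, fun x y h => by rw [abs_neg]; exact hK x y h⟩

/-- The supremum potential. -/
theorem sup_pot {c : X k → X k → ℝ} (hc : Coc c) {K : ℝ}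
    (hb : ∀ x y, Tail x y → |c x y| ≤ K) :
    ∃ B : X k → ℝ, LowerSemicontinuous B ∧ ∀ x y, Tail x y → B x - B y = c x y := by
  let S : X k → Set ℝ := fun x => {r | ∃ y, Tail x y ∧ r = c x y}
  have hSne : ∀ x, (S x).Nonempty := fun x => ⟨c x x, x, tail_refl x, rfl⟩
  have hSb : ∀ x, BddAbove (S x) := by
    intro x
    refine ⟨K, ?_⟩
    rintro r ⟨y, hy, rfl⟩
    exact (le_abs_self _).trans (hb x y hy)
  have hle : ∀ x y, Tail x y → sSup (S x) ≤ c x y + sSup (S y) := by
    intro x y hxy
    refine csSup_le (hSne x) ?_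
    rintro r ⟨z, hz, rfl⟩
    have h1 := hc.add x y z hxy (tail_trans (tail_symm hxy) hz)
    have h2 : c y z ≤ sSup (S y) := le_csSup (hSb y) ⟨z, tail_trans (tail_symm hxy) hz, rfl⟩
    linarith
  refine ⟨fun x => sSup (S x), ?_, ?_⟩
  · intro x r hr
    obtain ⟨s, ⟨y, hy, rfl⟩, hs⟩ := exists_lt_of_lt_csSup (hSne x) hr
    obtain ⟨N, hN⟩ := tail_symm hy
    have h1 : splice N y x = y := eq_splice hN
    have h2 := (hc.cont' N y).continuousAt (x := x)
    have h3 : ∀ᶠ z in 𝓝 x, r < c z (splice N y z) := by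
      refine h2.eventually (lt_mem_nhds ?_)
      change r < c x (splice N y x)
      rw [h1]
      exact hs
    filter_upwards [h3] with z hz
    exact lt_of_lt_of_le hz (le_csSup (hSb z) ⟨_, tail_symm (tail_splice N y z), rfl⟩)
  · intro x y hxy
    have h1 := hle x y hxy
    have h2 := hle y x (tail_symm hxy)
    rw [hc.neg hxy] at h2
    simp only
    linarith

theorem const_of_lsc {h : X k → ℝ} (hl : LowerSemicontinuous h)
    (hinv : ∀ x y, Tail x y → h x = h y) (x y : X k) : h x = h y := by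
  have key : ∀ x y, h x ≤ h y := by
    intro x y
    by_contra hlt
    push Not at hlt
    have h1 : IsOpen {z | h y < h z} := hl.isOpen_preimage (h y)
    obtain ⟨z, hz, hyz⟩ := exists_tail_mem h1 ⟨x, hlt⟩ y
    have h2 : h y < h z := hz
    rw [hinv y z hyz] at h2
    exact lt_irrefl _ h2
  exact le_antisymm (key x y) (key y x)

/-- A bounded cocycle is a continuous coboundary (Renault). -/
theorem exists_potential {c : X k → X k → ℝ} (hc : Coc c) {K : ℝ}
    (hb : ∀ x y, Tail x y → |c x y| ≤ K) :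
    ∃ β : X k → ℝ, Continuous β ∧ ∀ x y, Tail x y → c x y = β x - β y := by
  obtain ⟨B, hB, hB'⟩ := sup_pot hc hb
  obtain ⟨D, hD, hD'⟩ := sup_pot hc.neg' (K := K) (fun x y h => by rw [abs_neg]; exact hb x y h)
  have hconst := const_of_lsc (h := fun x => B x + D x) (hB.add hD) (fun x y h => by
    have h1 : B x - B y = c x y := hB' x y h
    have h2 : D x - D y = - c x y := hD' x y h
    change B x + D x = B y + D y
    linarith)
  refine ⟨B, ?_, fun x y h => (hB' x y h).symm⟩
  rw [continuous_iff_lower_upperSemicontinuous]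
  refine ⟨hB, ?_⟩
  intro x r hr
  have h1 := hD x (B x + D x - r) (by linarith)
  filter_upwards [h1] with z hz
  have h2 : B z + D z = B x + D x := hconst z x
  linarith

theorem exists_other (hk : ∀ N, ∃ n, N ≤ n ∧ 2 ≤ k n) (p : X k) :
    ∃ p', Tail p' p ∧ p' ≠ p := by
  obtain ⟨n, -, hn⟩ := hk 0
  have : Nontrivial (Fin (k n)) := Fin.nontrivial_iff_two_le.2 hn
  obtain ⟨v, hv⟩ := exists_ne (p n)
  refine ⟨Function.update p n v, ⟨n + 1, fun i hi => ?_⟩, ?_⟩
  · have : i ≠ n := by omega
    simp [Function.update_of_ne this]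
  · intro h
    apply hv
    have := congrFun h n
    rwa [Function.update_self] at this

/-- Key step: the supremum of `c (x, ·)` is finite. -/
theorem bdd_row (hk : ∀ N, ∃ n, N ≤ n ∧ 2 ≤ k n) {c : X k → X k → ℝ} (hc : Coc c) {β : X k → ℝ}
    (hβ : Continuous β) (hsign : ∀ x y, Tail x y → (0 ≤ c x y ↔ β y ≤ β x))
    (hinj : ∀ x y, Tail x y → β x = β y → x = y) (x : X k) :
    ∃ m : ℕ, ∀ y, Tail x y → c x y ≤ m := by
  by_contra hcon
  push Not at hcon
  choose y hy1 hy2 using hcon
  obtain ⟨p, φ, hφ, hp⟩ := CompactSpace.tendsto_subseq y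
  have hinf : Tendsto (fun j => c x (y (φ j))) atTop atTop := by
    refine tendsto_atTop_mono (fun j => ?_) tendsto_natCast_atTop_atTop
    have h1 : (j : ℝ) ≤ φ j := by exact_mod_cast hφ.id_le j
    exact h1.trans (hy2 (φ j)).le
  -- β p is the minimum over the class of x
  have hmin : ∀ q, Tail x q → β p ≤ β q := by
    intro q hq
    have h1 : ∀ᶠ j in atTop, β (y (φ j)) ≤ β q := by
      filter_upwards [hinf.eventually_ge_atTop (c x q)] with j hj
      have h2 := hc.add x q (y (φ j)) hq (tail_trans (tail_symm hq) (hy1 (φ j)))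
      exact (hsign q _ (tail_trans (tail_symm hq) (hy1 (φ j)))).1 (by linarith)
    exact le_of_tendsto ((hβ.tendsto p).comp hp) h1
  have hmin' : ∀ z, β p ≤ β z := by
    intro z
    by_contra hlt
    push Not at hlt
    obtain ⟨w, hw, hxw⟩ := exists_tail_mem (isOpen_lt hβ continuous_const) ⟨z, hlt⟩ x
    exact absurd (hmin w hxw) (not_le.2 hw)
  obtain ⟨p', hp'1, hp'2⟩ := exists_other hk p
  have hpp' : β p < β p' := lt_of_le_of_ne (hmin' p') fun h => hp'2 (hinj _ _ hp'1 h.symm)
  obtain ⟨N, hN⟩ := hp'1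
  have hsp : splice N p' p = p' := eq_splice hN
  have hc1 : Tendsto (fun j => c (splice N p' (y (φ j))) (y (φ j))) atTop (𝓝 (c p' p)) := by
    have := ((hc.cont N p').tendsto p).comp hp
    rw [hsp] at this
    exact this
  have hc2 : Tendsto (fun j => β (splice N p' (y (φ j)))) atTop (𝓝 (β p')) := by
    have := ((hβ.comp (continuous_splice N p')).tendsto p).comp hp
    simp only [Function.comp, hsp] at this
    exact this
  obtain ⟨q, hq, hxq⟩ := exists_tail_mem (isOpen_lt hβ (continuous_const (y := β p'))) ⟨p, hpp'⟩ x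
  have e1 := hc2.eventually (lt_mem_nhds (show β q < β p' from hq))
  have e2 := hc1.eventually (gt_mem_nhds (show c p' p < c p' p + 1 by linarith))
  have e3 := hinf.eventually_ge_atTop (c x q + (c p' p + 1))
  obtain ⟨j, h1, h2, h3⟩ := (e1.and (e2.and e3)).exists
  have t1 : Tail x (y (φ j)) := hy1 (φ j)
  have t2 : Tail (splice N p' (y (φ j))) (y (φ j)) := tail_splice _ _ _
  have t3 : Tail x (splice N p' (y (φ j))) := tail_trans t1 (tail_symm t2)
  have t4 : Tail q (splice N p' (y (φ j))) := tail_trans (tail_symm hxq) t3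
  have h4 := hc.add x _ _ t3 t2
  have h5 := hc.add x q _ hxq t4
  have h6 : ¬ 0 ≤ c q (splice N p' (y (φ j))) := fun h => by
    have := (hsign _ _ t4).1 h
    linarith
  push Not at h6
  linarith

theorem bdd_of (hk : ∀ N, ∃ n, N ≤ n ∧ 2 ≤ k n) {c : X k → X k → ℝ} (hc : Coc c) {β : X k → ℝ}
    (hβ : Continuous β) (hsign : ∀ x y, Tail x y → (0 ≤ c x y ↔ β y ≤ β x))
    (hinj : ∀ x y, Tail x y → β x = β y → x = y) :
    ∃ K : ℝ, ∀ x y, Tail x y → |c x y| ≤ K := by
  by_cases hne : Nonempty (X k)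
  swap
  · exact ⟨0, fun x => (hne ⟨x⟩).elim⟩
  have hcl : ∀ m : ℕ, IsClosed {x : X k | ∀ y, Tail x y → c x y ≤ m} := by
    intro m
    rw [← isOpen_compl_iff, isOpen_iff_mem_nhds]
    intro x hx
    simp only [Set.mem_compl_iff, Set.mem_ofPred_eq, not_forall, not_le] at hx
    obtain ⟨y, hxy, hlt⟩ := hx
    obtain ⟨N, hN⟩ := tail_symm hxy
    have h1 : splice N y x = y := eq_splice hN
    have h2 := (hc.cont' N y).continuousAt (x := x)
    have h3 : ∀ᶠ z in 𝓝 x, (m : ℝ) < c z (splice N y z) := by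
      refine h2.eventually (lt_mem_nhds ?_)
      change (m : ℝ) < c x (splice N y x)
      rw [h1]
      exact hlt
    filter_upwards [h3] with z hz hz'
    exact absurd (hz' _ (tail_symm (tail_splice N y z))) (not_le.2 hz)
  have hun : ⋃ m : ℕ, {x : X k | ∀ y, Tail x y → c x y ≤ m} = univ := by
    refine Set.eq_univ_of_forall fun x => Set.mem_iUnion.2 ?_
    exact bdd_row hk hc hβ hsign hinj x
  obtain ⟨m, o, ho⟩ := nonempty_interior_of_iUnion_of_closed hcl hun
  obtain ⟨n, hn⟩ := exists_splice_mem isOpen_interior ho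
  obtain ⟨C, hC⟩ := hc.bdd n
  have hup : ∀ x y, Tail x y → c x y ≤ C + m := by
    intro x y hxy
    have h1 : (splice n o x) ∈ {x : X k | ∀ y, Tail x y → c x y ≤ m} := interior_subset (hn x)
    have t1 := tail_splice n o x
    have h2 := h1 y (tail_trans t1 hxy)
    have h3 := hc.add x _ y (tail_symm t1) (tail_trans t1 hxy)
    have h4 := (abs_le.1 (hC _ _ (rel_splice n o x))).1
    have h5 := hc.neg t1
    linarith
  refine ⟨C + m, fun x y hxy => abs_le.2 ⟨?_, hup x y hxy⟩⟩
  have := hup y x (tail_symm hxy)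
  rw [hc.neg hxy] at this
  linarith

end proof

/-- `k` is the sequence of multiplicities of a UHF algebra: all `k n` are positive and infinitely
many are at least `2`. -/
def IsUHF (k : ℕ → ℕ) : Prop := (∀ n, 1 ≤ k n) ∧ ∀ N, ∃ n, N ≤ n ∧ 2 ≤ k n

/-- If the spectrum `P` of a TAF subalgebra of a UHF algebra admits an unbounded cocycle, then it
admits no bounded cocycle. -/
theorem result (k : ℕ → ℕ) (hk : IsUHF k) (P : Set (R k)) (hP : IsSpectrum P)
    (c : R k → ℝ) (hc : Admits P c) (hunb : ¬ IsBddCocycle c) :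
    ¬ ∃ c' : R k → ℝ, Admits P c' ∧ IsBddCocycle c' := by
  rintro ⟨c', hc', K, hK⟩
  apply hunb
  have h1 := coc_two hc.1
  have h2 := coc_two hc'.1
  obtain ⟨β, hβ, hβ'⟩ := exists_potential h2 (K := K) (fun x y h => by
    rw [two_eq c' h]
    exact hK _)
  have hmem : ∀ x y (h : Tail x y), (⟨(x, y), h⟩ : R k) ∈ P ↔ β y ≤ β x := by
    intro x y h
    have h3 := hβ' x y h
    rw [two_eq c' h] at h3
    have h4 : (⟨(x, y), h⟩ : R k) ∈ P ↔ 0 ≤ c' ⟨(x, y), h⟩ := by
      rw [hc'.2]
      rfl
    rw [h4, h3, sub_nonneg]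
  have hsign : ∀ x y, Tail x y → (0 ≤ two c x y ↔ β y ≤ β x) := by
    intro x y h
    rw [← hmem x y h, hc.2, two_eq c h]
    rfl
  have hinj : ∀ x y, Tail x y → β x = β y → x = y := by
    intro x y h he
    exact hP.2.2.1 _ ((hmem x y h).2 he.ge) _ ((hmem y x (tail_symm h)).2 he.le) rfl rfl
  obtain ⟨K', hK'⟩ := bdd_of hk.2 h1 hβ hsign hinj
  refine ⟨K', fun p => ?_⟩
  have := hK' p.1.1 p.1.2 p.2
  rwa [two_eq c p.2] at this

end Pool.Agent.Results.MP_3ea43b_an.NoBoundedCocycle
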